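import Pool.Agent.X213.FujProd

/-!
# Fujita's freeness conjecture for étale quotients of products of complete intersections

`Y = ∏ Y_i`, `Y_i ⊂ P^(N_i)` a complete intersection, or arithmetically Cohen-Macaulay, with
`ω_(Y_i) = O(κ_i)` and `n_i = dim Y_i`. A finite group `G` acts by diagonal matrices on every
`P^(N_i)`, preserving `Y_i`, such that the action on the product `Y` is free (the actions on the
factors `Y_i` need not be free; nothing is assumed on the order of `G`). For `X = Y/G` and a line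
bundle `A` on `X` whose pullback to `Y` is `⊠ O(k_i)`, `k_i ≥ 1`, the sections of `K_X + mA` are the
multihomogeneous forms of multidegree `(κ_i + m k_i)` on which `G` acts by a given character `χ`. For
`m ≥ dim X + 1` (even for `m ≥ max n_i + 1`) they have no common zero.
-/

set_option autoImplicit false

namespace Pool.Agent.Results.MP_9ff3e7_ag.DiagonalQuotientsFree

open MvPolynomial

/-- Homogeneous ideals `I i` in `ℂ[x_0, …, x_(N i)]` and actions of `G` on `ℂ^(N i + 1)` by diagonal
matrices, the `j`-th coordinate being multiplied by the character `α i j`. The ideals `I i` are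
stable under `G`, and no element `g ≠ 1` fixes a point of the product of the projective zero sets:
a tuple `v` of nonzero zeros `v i` of the `I i` such that every `v i` is an eigenvector of `g`. -/
structure ProductCover (G : Type) [Group G] {ι : Type} (N : ι → ℕ) where
  I : ∀ i, Ideal (MvPolynomial (Fin (N i + 1)) ℂ)
  homogeneous : ∀ i, ∀ p ∈ I i, ∀ n, homogeneousComponent n p ∈ I i
  α : ∀ i, Fin (N i + 1) → G →* ℂˣ
  stable : ∀ i, ∀ (g : G), ∀ p ∈ I i, bind₁ (fun j => C (α i j g : ℂ) * X j) p ∈ I i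
  free : ∀ v : ∀ i, Fin (N i + 1) → ℂ, (∀ i, v i ≠ 0 ∧ ∀ p ∈ I i, eval (v i) p = 0) →
    ∀ g : G, (∀ i, ∃ μ : ℂ, ∀ j, (α i j g : ℂ) * v i j = μ * v i j) → g = 1

/-- the linear form with coefficients `a` -/
noncomputable def linForm {N : ℕ} (a : Fin (N + 1) → ℂ) : MvPolynomial (Fin (N + 1)) ℂ :=
  ∑ i, C (a i) * X i

/-- `I` is generated by `c = N - n` forms of degrees `d j ≥ 1`, and `κ = ∑ d j - (N + 1)`. -/
def CompleteIntersection {N : ℕ} (I : Ideal (MvPolynomial (Fin (N + 1)) ℂ)) (n : ℕ) (κ : ℤ) :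
    Prop :=
  ∃ (c : ℕ) (f : Fin c → MvPolynomial (Fin (N + 1)) ℂ) (d : Fin c → ℕ),
    (∀ j, (f j).IsHomogeneous (d j) ∧ 0 < d j) ∧ I = Ideal.span (Set.range f) ∧
    N = n + c ∧ κ = ∑ j, (d j : ℤ) - (N + 1)

/-- There are `n + 1` linear forms which are a regular sequence modulo `I`, and modulo `I` and these
linear forms there are no nonzero forms of degree `> κ + n + 1`. For the ideal of an arithmetically
Cohen-Macaulay variety of dimension `n` this says that the `a`-invariant is at most `κ`. -/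
def CohenMacaulay {N : ℕ} (I : Ideal (MvPolynomial (Fin (N + 1)) ℂ)) (n : ℕ) (κ : ℤ) : Prop :=
  ∃ a : Fin (n + 1) → Fin (N + 1) → ℂ,
    (∀ i p, linForm (a i) * p ∈ I ⊔ Ideal.span ((fun j => linForm (a j)) '' {j | j < i}) →
      p ∈ I ⊔ Ideal.span ((fun j => linForm (a j)) '' {j | j < i})) ∧
    ∀ t : ℕ, κ + n + 1 < t → ∀ p : MvPolynomial (Fin (N + 1)) ℂ, p.IsHomogeneous t →
      p ∈ I ⊔ Ideal.span (Set.range fun j => linForm (a j))

/-- The multihomogeneous forms of multidegree `e` (degree `e i` in the `i`-th group of variables)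
on which `G` acts by the character `χ`: the sections of the line bundle on `X = Y/G` given by `e`
and `χ`. -/
def Section {G : Type} [Group G] {ι : Type} [DecidableEq ι] {N : ι → ℕ} (D : ProductCover G N)
    (e : ι → ℕ) (χ : G →* ℂˣ) (F : MvPolynomial (Σ i, Fin (N i + 1)) ℂ) : Prop :=
  (∀ i, IsWeightedHomogeneous
    (fun s : Σ i, Fin (N i + 1) => if s.1 = i then (1 : ℕ) else 0) F (e i)) ∧
    ∀ (g : G) (x : ∀ i, Fin (N i + 1) → ℂ),
      eval (fun s => (D.α s.1 s.2 g : ℂ) * x s.1 s.2) F = χ g * eval (fun s => x s.1 s.2) F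

open Pool.Agent.TH144.MB in
theorem reg_ofFn {N : ℕ} (s : ℕ) : ∀ (a : Fin s → Fin (N + 1) → ℂ)
    (I : Ideal (MvPolynomial (Fin (N + 1)) ℂ)),
    (∀ i p, linForm (a i) * p ∈ I ⊔ Ideal.span ((fun j => linForm (a j)) '' {j | j < i}) →
      p ∈ I ⊔ Ideal.span ((fun j => linForm (a j)) '' {j | j < i})) →
    Reg I ((List.ofFn a).map lin) := by
  induction s with
  | zero => intro a I _; simp [Reg]
  | succ s ih =>
    intro a I h
    rw [List.ofFn_succ, List.map_cons]
    refine ⟨?_, ih _ _ ?_⟩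
    · have h0 := h 0
      have h1 : {j : Fin (s + 1) | j < 0} = ∅ := by
        ext j
        simp
      rw [h1, Set.image_empty, Ideal.span_empty, sup_bot_eq] at h0
      exact h0
    · intro i p
      have h0 := h i.succ p
      have h1 : {j : Fin (s + 1) | j < i.succ} = {0} ∪ Fin.succ '' {j | j < i} := by
        ext j
        refine Fin.cases ?_ (fun j => ?_) j
        · simp
        · simp [Fin.succ_ne_zero]
      have h2 : I ⊔ Ideal.span ((fun j => linForm (a j)) '' {j | j < i.succ})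
          = I ⊔ Ideal.span {lin (a 0)}
            ⊔ Ideal.span ((fun j => linForm (a (Fin.succ j))) '' {j | j < i}) := by
        rw [h1, Set.image_union, Set.image_singleton, Ideal.span_union, ← sup_assoc,
          Set.image_image]
        rfl
      rw [h2] at h0
      exact h0

open Pool.Agent.TH144.MB in
theorem le_ext_ofFn {N : ℕ} (s : ℕ) (a : Fin s → Fin (N + 1) → ℂ)
    (I : Ideal (MvPolynomial (Fin (N + 1)) ℂ)) :
    I ⊔ Ideal.span (Set.range fun j => linForm (a j)) ≤ ext I ((List.ofFn a).map lin) := by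
  have h4 : ∀ (L : List (MvPolynomial (Fin (N + 1)) ℂ))
      (I : Ideal (MvPolynomial (Fin (N + 1)) ℂ)), ∀ f ∈ L, f ∈ ext I L := by
    intro L
    induction L with
    | nil => intro I f hf; simp at hf
    | cons g L ih =>
      intro I f hf
      rw [ext_cons]
      rcases List.mem_cons.1 hf with rfl | hf
      · exact Ideal.mem_sup_right (Ideal.mem_span_singleton_self f)
      · exact Ideal.mem_sup_left (ih I f hf)
  refine sup_le (le_ext _ _) ?_
  rw [Ideal.span_le]
  rintro _ ⟨j, rfl⟩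
  refine h4 _ _ _ (List.mem_map.2 ⟨a j, ?_, rfl⟩)
  rw [List.mem_ofFn]
  exact ⟨j, rfl⟩

open Pool.Agent.TH144.MB in
theorem key {N : ℕ} {I : Ideal (MvPolynomial (Fin (N + 1)) ℂ)}
    (hI : ∀ p ∈ I, ∀ n, homogeneousComponent n p ∈ I) {n : ℕ} {κ : ℤ}
    (hY : CompleteIntersection I n κ ∨ CohenMacaulay I n κ)
    (y : Fin (N + 1) → ℂ) (hy : ∀ p ∈ I, eval y p = 0) :
    ∃ ρ : ℕ, TopBound I ρ ∧ (ρ : ℤ) ≤ κ + n + 1 := by
  rcases hY with ⟨c, f, d, hfd, hI, hN, hκ⟩ | ⟨a, ha, hb⟩
  · refine ⟨∑ j, (d j - 1), ?_, ?_⟩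
    · rw [hI]
      exact topBound_forms f d (fun j => (hfd j).1) fun j => (hfd j).2
    · have h1 : ((∑ j, (d j - 1) : ℕ) : ℤ) = ∑ j, (d j : ℤ) - c := by
        rw [Nat.cast_sum]
        have h2 : ∀ j, ((d j - 1 : ℕ) : ℤ) = (d j : ℤ) - 1 := fun j => by
          have := (hfd j).2
          omega
        simp only [h2]
        rw [Finset.sum_sub_distrib]
        simp
      have h3 : (N : ℤ) = n + c := by exact_mod_cast hN
      rw [h1, hκ, h3]
      linarith
  · rcases lt_or_ge (κ + n + 1) 0 with h0 | h0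
    · exfalso
      have h1 := hb 0 (by simpa using h0) 1 (isHomogeneous_one _ _)
      have h2 : I ⊔ Ideal.span (Set.range fun j => linForm (a j))
          ≤ RingHom.ker (eval (fun i => (0 : ℂ) * y i)) := by
        refine sup_le (fun p hp => RingHom.mem_ker.2 (cone hI hy 0 p hp)) ?_
        rw [Ideal.span_le]
        rintro _ ⟨j, rfl⟩
        refine RingHom.mem_ker.2 ?_
        simp [linForm]
      have h3 := RingHom.mem_ker.1 (h2 h1)
      rw [map_one] at h3
      exact one_ne_zero h3
    · refine ⟨(κ + n + 1).toNat, ?_, by omega⟩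
      refine topBound_cm hI (List.ofFn a) (reg_ofFn (n + 1) a I ha) ?_
      intro t ht p hp
      refine le_ext_ofFn (n + 1) a I (hb t ?_ p hp)
      omega

/-- For `m ≥ max n_i + 1`, every line bundle `K_X + mA` on `X = (∏ Y_i)/G`, with `A` pulling back to
`⊠ O(k_i)`, is globally generated: no point `y` is a common zero of its sections. -/
theorem result {G : Type} [Group G] [Finite G] {ι : Type} [Fintype ι] [DecidableEq ι]
    {N : ι → ℕ} (D : ProductCover G N) (n : ι → ℕ) (κ : ι → ℤ)
    (hY : ∀ i, CompleteIntersection (D.I i) (n i) (κ i) ∨ CohenMacaulay (D.I i) (n i) (κ i))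
    (k : ι → ℕ) (hk : ∀ i, 1 ≤ k i) (m : ℕ) (hm : ∀ i, n i + 1 ≤ m) (χ : G →* ℂˣ)
    (y : ∀ i, Fin (N i + 1) → ℂ) (hy : ∀ i, y i ≠ 0 ∧ ∀ p ∈ D.I i, eval (y i) p = 0) :
    ∃ e : ι → ℕ, (∀ i, (e i : ℤ) = κ i + m * k i) ∧
      ∃ F, Section D e χ F ∧ eval (fun s => y s.1 s.2) F ≠ 0 := by
  classical
  have _ := Fintype.ofFinite G
  have hst : ∀ i, ∀ v : Fin (N i + 1) → ℂ, (∀ p ∈ D.I i, eval v p = 0) → ∀ (g : G),
      ∀ p ∈ D.I i, eval (Pool.Agent.TH144.MB.mv (D.α i) g v) p = 0 := by
    intro i v hv g p hp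
    have h1 : eval (Pool.Agent.TH144.MB.mv (D.α i) g v) p =
        eval v (bind₁ (fun j => C (D.α i j g : ℂ) * X j) p) := by
      rw [← aeval_eq_eval, ← aeval_eq_eval, aeval_bind₁]
      congr 2
      funext j
      simp [Pool.Agent.TH144.MB.mv]
    rw [h1]
    exact hv _ (D.stable i g p hp)
  let S : ∀ i, Pool.Agent.X213.FujProd.Fac ℂ G (N i + 1) := fun i =>
    { I := D.I i, hom := D.homogeneous i, α := D.α i, stable := hst i }
  choose ρ hρ hρle using fun i => key (D.homogeneous i) (hY i) (y i) (hy i).2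
  have he : ∀ i, (ρ i : ℤ) ≤ κ i + m * k i := by
    intro i
    have h1 : n i + 1 ≤ m * k i := (hm i).trans (Nat.le_mul_of_pos_right m (hk i))
    have h2 : ((n i : ℤ) + 1) ≤ m * k i := by exact_mod_cast h1
    have := hρle i
    linarith
  obtain ⟨x, h1, h2, h3⟩ := Pool.Agent.X213.FujProd.occ S hρ
    (fun w hw0 hw g hg => D.free w (fun i => ⟨hw0 i, hw i⟩) g hg)
    (fun i => (hy i).1) (fun i => (hy i).2) χ (t := fun i => (κ i + m * k i).toNat)
    (fun i => by
      have := he i
      omega)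
  refine ⟨fun i => (κ i + m * k i).toNat, fun i => ?_,
    monomial (Finsupp.equivFunOnFinite.symm fun s : Σ i, Fin (N i + 1) => x s.1 s.2) 1,
    ⟨fun i => ?_, fun g z => ?_⟩, ?_⟩
  · have := he i
    have h4 : (0 : ℤ) ≤ ρ i := Int.natCast_nonneg _
    exact Int.toNat_of_nonneg (by linarith)
  · refine isWeightedHomogeneous_monomial _ _ _ ?_
    rw [← h1 i, Finsupp.weight_apply, Finsupp.sum_fintype _ _ (by simp), Fintype.sum_sigma,
      Finset.sum_eq_single i]
    · simp [Finsupp.degree_eq_sum]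
    · intro l _ hl
      simp [hl]
    · intro h; exact absurd (Finset.mem_univ i) h
  · rw [eval_monomial, eval_monomial, Finsupp.prod_fintype _ _ (fun s => pow_zero _),
      Finsupp.prod_fintype _ _ (fun s => pow_zero _)]
    simp only [Finsupp.equivFunOnFinite_symm_apply_apply, mul_pow, Finset.prod_mul_distrib,
      one_mul]
    congr 1
    rw [← h2, MonoidHom.finsetProd_apply, Units.coe_prod, Fintype.prod_sigma]
    refine Finset.prod_congr rfl fun i _ => ?_
    rw [Pool.Agent.TH144.MB.chr_apply, Units.coe_prod]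
    simp [S]
  · rw [eval_monomial, Finsupp.prod_fintype _ _ (fun s => pow_zero _), one_mul,
      Fintype.prod_sigma, Finset.prod_ne_zero_iff]
    intro i _
    exact h3 i

end Pool.Agent.Results.MP_9ff3e7_ag.DiagonalQuotientsFree
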