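import Pool.Agent.X213.FwpAll

/-!
# Fujita's very ampleness conjecture for hypersurfaces in fake weighted projective spaces

`X` is a hypersurface of dimension `n ≥ 1` in a fake weighted projective space
`(ℂ^(n + 2) ∖ 0) / (ℂˣ × G)`, `G ≠ 1` finite, which does not meet the locus where the action has
nontrivial stabilisers; equivalently, `X` is the quotient of a weighted hypersurface
`V(f) ⊂ P(a_0, …, a_(n + 1))`, with `O(1)` invertible on `V(f)`, by a nontrivial finite group `G`
acting diagonally, freely on `V(f)`. If the line bundle `A` on `X` pulls back to `O(k)`, `k ≥ 1`, the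
sections of `K_X + mA` are the forms of weighted degree `e = d - ∑ a_i + mk` on which `G` acts by a
given character `χ`. For `m ≥ n + 2` these have no common zero on `X`, separate points and separate
tangent vectors.

Proof outline. `f` contains powers of all variables, so `V(f)` meets all the coordinate lines, and
any two of the characters `(t, g) ↦ t ^ a_i α_i(g)` generate the character group of `ℂˣ × G`. Hence
`|G| a_0 ⋯ a_(n + 1)` divides `d`, and all characters of degree `> |G| a_i a_j - a_i - a_j` occur
among the monomials in `x_i, x_j`. So the monomials `x_l x_i ^ p x_j ^ q` of degree `e` determine a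
point up to the action once its coordinates `x_i, x_j` are fixed, for any pair `i, j` in the support;
these are fixed by two monomials in `x_i, x_j` if `d ≥ 2 |G| a_i a_j`, and otherwise the restriction
of `f` to the coordinate line is a binomial and `x_i, x_j` are the only nonzero coordinates, unless
all weights are one. In the latter case `|G| ≤ d`, and one can use the results of the starting file
`SmallDiagonalQuotients`.
-/

set_option autoImplicit false

namespace Pool.Agent.Results.MP_9ff3e7_ag.FakeWeightedVeryAmple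

open MvPolynomial

/-- A weighted homogeneous form `f` of degree `d > 0` in `ℂ[x_0, …, x_(n + 1)]`, `x_i` of weight
`a i > 0`, and an action of `G` by diagonal matrices, `x_i` being multiplied by the character `α i`,
such that `f` is semi-invariant and `ℂˣ × G` acts freely on the zeros of `f` different from `0`. -/
structure FreeHypersurface (G : Type) [Group G] (n : ℕ) where
  a : Fin (n + 2) → ℕ
  pos : ∀ i, 0 < a i
  α : Fin (n + 2) → G →* ℂˣ
  d : ℕ
  hd : 0 < d
  f : MvPolynomial (Fin (n + 2)) ℂ
  homogeneous : IsWeightedHomogeneous a f d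
  semiInvariant : ∃ θ : G →* ℂˣ, ∀ (g : G) (x : Fin (n + 2) → ℂ),
    eval (fun i => (α i g : ℂ) * x i) f = θ g * eval x f
  free : ∀ v : Fin (n + 2) → ℂ, v ≠ 0 → eval v f = 0 → ∀ (t : ℂˣ) (g : G),
    (∀ i, (t : ℂ) ^ a i * (α i g : ℂ) * v i = v i) → t = 1 ∧ g = 1

/-- The forms of weighted degree `e` on which `G` acts by the character `χ`: the sections of the
line bundle on `X` given by `e` and `χ`. -/
def Section {G : Type} [Group G] {n : ℕ} (X : FreeHypersurface G n) (e : ℕ) (χ : G →* ℂˣ)
    (F : MvPolynomial (Fin (n + 2)) ℂ) : Prop :=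
  IsWeightedHomogeneous X.a F e ∧
    ∀ (g : G) (x : Fin (n + 2) → ℂ), eval (fun i => (X.α i g : ℂ) * x i) F = χ g * eval x F

/-- For `m ≥ dim X + 2` the line bundle `K_X + mA`, `A` pulling back to `O(k)`, is very ample: with
`e = d - ∑ a_i + mk ≥ 0`, for every character `χ` the sections of degree `e` and character `χ` have
no common zero, separate any two points `v`, `w` of the cone which are not in the same orbit of
`ℂˣ × G`, and are not all constant to first order at `v` (in the sense that `F(v) = 0` implies
`dF_v(u) = 0`) in the direction of a vector `u` tangent to `V(f)` at `v` which is not tangent to the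
orbit of `v`. -/
theorem result {G : Type} [Group G] [Finite G] [Nontrivial G] {n : ℕ} (hn : 1 ≤ n)
    (X : FreeHypersurface G n) (k m : ℕ) (hk : 1 ≤ k) (hm : n + 2 ≤ m) :
    ∃ e : ℕ, e + ∑ i, X.a i = X.d + m * k ∧ ∀ χ : G →* ℂˣ,
      -- no base points
      (∀ v : Fin (n + 2) → ℂ, v ≠ 0 → eval v X.f = 0 →
        ∃ F, Section X e χ F ∧ eval v F ≠ 0) ∧
      -- points are separated
      (∀ v w : Fin (n + 2) → ℂ, v ≠ 0 → w ≠ 0 → eval v X.f = 0 → eval w X.f = 0 →
        (¬ ∃ (t : ℂˣ) (g : G), ∀ i, w i = (t : ℂ) ^ X.a i * (X.α i g : ℂ) * v i) →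
        ∃ F, Section X e χ F ∧ eval v F = 0 ∧ eval w F ≠ 0) ∧
      -- tangent vectors are separated
      (∀ v u : Fin (n + 2) → ℂ, v ≠ 0 → eval v X.f = 0 →
        ∑ i, eval v (pderiv i X.f) * u i = 0 → (¬ ∃ c : ℂ, ∀ i, u i = c * (X.a i * v i)) →
        ∃ F, Section X e χ F ∧ eval v F = 0 ∧ ∑ i, eval v (pderiv i F) * u i ≠ 0) := by
  obtain ⟨θ, hθ⟩ := X.semiInvariant
  let S : Pool.Agent.X213.Fwp.Hyp G (n + 2) :=
    { a := X.a, pos := X.pos, α := X.α, d := X.d, hd := X.hd, f := X.f, hf := X.homogeneous,
      θ := θ, hθ := hθ, free := X.free }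
  have hmk : n + 2 ≤ m * k := hm.trans (Nat.le_mul_of_pos_right m hk)
  have hsum : ∑ i, X.a i = ∑ i, (X.a i - 1) + (n + 2) := by
    have h1 : ∀ i, X.a i = (X.a i - 1) + 1 := fun i => by
      have := X.pos i
      omega
    conv_lhs => rw [Finset.sum_congr rfl fun i _ => h1 i]
    rw [Finset.sum_add_distrib]
    simp
  have hprod : Nat.card G * ∏ l, X.a l ≤ X.d := Nat.le_of_dvd X.hd (S.prodDvd (by omega))
  have hpred := Pool.Agent.H39R2.Fuj.sum_pred_add_one_le_prod Finset.univ X.a
    (fun i _ => X.pos i)
  have hcard : 2 ≤ Nat.card G := Finite.one_lt_card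
  have h2 : 2 * ∏ l, X.a l ≤ Nat.card G * ∏ l, X.a l := Nat.mul_le_mul_right _ hcard
  refine ⟨X.d + m * k - ∑ i, X.a i, by omega, fun χ => ?_⟩
  exact S.all (by omega) (e := X.d + m * k - ∑ i, X.a i)
    (by show X.d ≤ X.d + m * k - ∑ i, X.a i + ∑ l, (X.a l - 1); omega) χ

end Pool.Agent.Results.MP_9ff3e7_ag.FakeWeightedVeryAmple
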